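import Pool.Graph.R_pool_sql_team_seeded_63374d34.N646.MC.Zfc

/-! # The invariants for `b` with linearly many small values -/

set_option autoImplicit false

namespace Pool.Agent.KS6_94.BF

open Cardinal Set Filter Pool.Agent.R593.Eq Pool.Agent.N646.MC

/-- For some constant `C` and all `n` at most `C n` of the numbers `b k` are at most `n`. -/
def LinearCount (b : ℕ → ℕ) : Prop :=
  ∃ C : ℕ, ∀ n : ℕ, {k | b k ≤ n}.Finite ∧ {k | b k ≤ n}.ncard ≤ C * n

/-- finitely many classes of coordinates -/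
theorem beq_le_of_classes {K : Type} [Infinite K] (h : Esc K) {b : ℕ → ℕ} (C : ℕ)
    (j : ℕ → ℕ) (c : ℕ → Fin C) (hj : ∀ i, j i < b i)
    (hinj : ∀ i i', j i = j i' → c i = c i' → i = i') : beq b ≤ #K := by
  classical
  obtain ⟨y, hy1, hy2⟩ := h
  let f : (Fin C → K) → ℕ → ℕ := fun κ i => y (κ (c i)) (j i)
  have hf : ∀ κ, f κ ∈ Prd b := fun κ i => lt_of_le_of_lt (hy1 _ (j i)) (hj i)
  have hnb : ¬ Bdd b (range f) := by
    rintro ⟨a, g, ha, _, hm⟩
    let h0 : Fin C → ℕ → ℕ := fun e v => if h : ∃ i, c i = e ∧ j i = v then g h.choose else 0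
    have hh0 : ∀ i, h0 (c i) (j i) = g i := by
      intro i
      have h1 : ∃ i', c i' = c i ∧ j i' = j i := ⟨i, rfl, rfl⟩
      have h2 : h0 (c i) (j i) = g h1.choose := dif_pos h1
      rw [h2, hinj _ _ h1.choose_spec.2 h1.choose_spec.1]
    choose κ m hκ using fun e => hy2 (h0 e)
    obtain ⟨M, hM⟩ := hm (f κ) (mem_range_self κ)
    have hmono : StrictMono a := strictMono_nat_of_lt_succ ha.2
    have hag : ∀ n, ∃ i, n ≤ i ∧ j i < m (c i) := by
      intro n
      obtain ⟨i, h1, h2, h3⟩ := hM (max M n) (le_max_left _ _)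
      have h4 : max M n ≤ i := (hmono.id_le _).trans h1
      refine ⟨i, by omega, ?_⟩
      by_contra hcon
      exact hκ (c i) (j i) (not_lt.1 hcon) ((hh0 i).trans h3.symm)
    have hinf : {i | j i < m (c i)}.Infinite := by
      rw [Set.infinite_iff_exists_gt]
      intro n
      obtain ⟨i, h1, h2⟩ := hag (n + 1)
      exact ⟨i, h2, h1⟩
    have hfin : {i | j i < m (c i)}.Finite := by
      have h5 : {i | j i < m (c i)} = ⋃ e : Fin C, {i | c i = e ∧ j i < m e} := by
        ext i
        simp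
      rw [h5]
      refine finite_iUnion fun e => ?_
      refine Set.Finite.of_finite_image (f := j) ((Set.finite_lt_nat (m e)).subset ?_) ?_
      · rintro v ⟨i, hi, rfl⟩
        exact hi.2
      · intro i hi i' hi' hii
        exact hinj i i' hii (hi.1.trans hi'.1.symm)
    exact hinf hfin
  refine (csInf_le' ⟨range f, ?_, hnb, rfl⟩ : beq b ≤ #(range f)).trans (mk_range_le.trans ?_)
  · rintro _ ⟨κ, rfl⟩
    exact hf κ
  · rw [← Cardinal.power_def, Cardinal.mk_fin]
    exact Cardinal.power_nat_le (Cardinal.aleph0_le_mk K)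

/-- the upper bound for all `b` with linearly many small values -/
theorem beq_le {K : Type} [Infinite K] (h : Esc K) {b : ℕ → ℕ} (_hb : ∀ i, 1 ≤ b i)
    (hC : LinearCount b) : beq b ≤ #K := by
  classical
  obtain ⟨C, hC⟩ := hC
  let S : ℕ → Set ℕ := fun i => {i' | b i' < b i ∨ (b i' = b i ∧ i' < i)}
  have hsub : ∀ i, S i ⊆ {k | b k ≤ b i} := fun i i' hi' => by
    rcases hi' with h | h
    · exact h.le
    · exact h.1.le
  have hSfin : ∀ i, (S i).Finite := fun i => (hC (b i)).1.subset (hsub i)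
  have hlt : ∀ i, (S i).ncard < C * b i := by
    intro i
    refine lt_of_lt_of_le (Set.ncard_lt_ncard ⟨hsub i, fun hs => ?_⟩ (hC (b i)).1) (hC (b i)).2
    have h1 : i ∈ S i := hs (show b i ≤ b i from le_rfl)
    rcases h1 with h | h
    · exact absurd h (lt_irrefl _)
    · exact absurd h.2 (lt_irrefl _)
  have hC1 : 0 < C := by
    have := hlt 0
    by_contra hn
    have hC0 : C = 0 := by omega
    rw [hC0] at this
    simp at this
  have hmono : ∀ i i', (b i < b i' ∨ (b i = b i' ∧ i < i')) → (S i).ncard < (S i').ncard := by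
    intro i i' hii
    refine Set.ncard_lt_ncard ⟨?_, fun hs => ?_⟩ (hSfin i')
    · intro z hz
      have hz' : b z < b i ∨ (b z = b i ∧ z < i) := hz
      show b z < b i' ∨ (b z = b i' ∧ z < i')
      omega
    · have h1 : i ∈ S i := hs hii
      rcases h1 with h | h
      · exact absurd h (lt_irrefl _)
      · exact absurd h.2 (lt_irrefl _)
  have hinj : ∀ i i', (S i).ncard = (S i').ncard → i = i' := by
    intro i i' hii
    by_contra hne
    rcases lt_trichotomy (b i) (b i') with h | h | h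
    · exact absurd hii (hmono i i' (Or.inl h)).ne
    · rcases lt_or_gt_of_ne hne with h' | h'
      · exact absurd hii (hmono i i' (Or.inr ⟨h, h'⟩)).ne
      · exact absurd hii (hmono i' i (Or.inr ⟨h.symm, h'⟩)).ne'
    · exact absurd hii (hmono i' i (Or.inl h)).ne'
  refine beq_le_of_classes h C (fun i => (S i).ncard / C)
    (fun i => ⟨(S i).ncard % C, Nat.mod_lt _ hC1⟩) (fun i => Nat.div_lt_of_lt_mul (hlt i))
    fun i i' h1 h2 => hinj i i' ?_
  have h3 : (S i).ncard % C = (S i').ncard % C := congrArg Fin.val h2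
  rw [← Nat.div_add_mod (S i).ncard C, ← Nat.div_add_mod (S i').ncard C, h3]
  have h4 : (S i).ncard / C = (S i').ncard / C := h1
  rw [h4]

/-- summable `b` have linearly many small values -/
theorem linearCount_of_summable {b : ℕ → ℕ} (hb : ∀ i, 1 ≤ b i)
    (hs : Summable fun i => (1 : ℝ) / b i) : LinearCount b := by
  classical
  obtain ⟨N, j, h1, h2⟩ := exists_inj hb hs
  refine ⟨N + 1, fun n => ?_⟩
  have hA : {k | N ≤ k ∧ b k ≤ n}.Finite := by
    refine Set.Finite.of_finite_image (f := j) ((Set.finite_lt_nat n).subset ?_) ?_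
    · rintro v ⟨i, hi, rfl⟩
      exact (h1 i hi.1).trans_le hi.2
    · intro i hi i' hi' hii
      exact h2 i i' hi.1 hi'.1 hii
  have hAc : {k | N ≤ k ∧ b k ≤ n}.ncard ≤ n := by
    have h3 : {k | N ≤ k ∧ b k ≤ n}.ncard ≤ (Set.Iio n).ncard := by
      refine Set.ncard_le_ncard_of_injOn j (fun i hi => (h1 i hi.1).trans_le hi.2)
        (fun i hi i' hi' hii => h2 i i' hi.1 hi'.1 hii) (Set.finite_Iio n)
    have h4 : (Set.Iio n).ncard = n := by
      rw [← Finset.coe_Iio, Set.ncard_coe_finset, Nat.card_Iio]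
    omega
  have hsub : {k | b k ≤ n} ⊆ Set.Iio N ∪ {k | N ≤ k ∧ b k ≤ n} := fun k hk => by
    rcases lt_or_ge k N with h | h
    · exact Or.inl h
    · exact Or.inr ⟨h, hk⟩
  have hfin : (Set.Iio N ∪ {k | N ≤ k ∧ b k ≤ n}).Finite := (Set.finite_Iio N).union hA
  refine ⟨hfin.subset hsub, ?_⟩
  rcases Nat.eq_zero_or_pos n with rfl | hn
  · have h5 : {k | b k ≤ 0} = (∅ : Set ℕ) := by
      ext k
      have := hb k
      simp
      omega
    rw [h5]
    simp
  · have h6 := (Set.ncard_le_ncard hsub hfin).trans (Set.ncard_union_le _ _)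
    have h7 : (Set.Iio N).ncard = N := by
      rw [← Finset.coe_Iio, Set.ncard_coe_finset, Nat.card_Iio]
    nlinarith

/-- functions of linear growth have linearly many small values -/
theorem linearCount_div (C : ℕ) (hC : 1 ≤ C) : LinearCount fun k => k / C + 1 := by
  refine ⟨C, fun n => ?_⟩
  have h1 : {k : ℕ | k / C + 1 ≤ n} ⊆ Set.Iio (C * n) := fun k hk => by
    have h2 : k / C < n := hk
    have h3 := (Nat.div_lt_iff_lt_mul (show 0 < C by omega)).1 h2
    show k < C * n
    rw [mul_comm]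
    exact h3
  refine ⟨(Set.finite_Iio _).subset h1, (Set.ncard_le_ncard h1 (Set.finite_Iio _)).trans ?_⟩
  rw [← Finset.coe_Iio, Set.ncard_coe_finset, Nat.card_Iio]

theorem not_summable_div (C : ℕ) : ¬ Summable fun k : ℕ => (1 : ℝ) / ((k / C + 1 : ℕ) : ℝ) := by
  intro hs
  have h1 : Summable fun k : ℕ => (1 : ℝ) / ((k : ℝ) + 1) := by
    refine hs.of_nonneg_of_le (fun k => by positivity) fun k => ?_
    refine one_div_le_one_div_of_le (by positivity) ?_
    have h2 : k / C + 1 ≤ k + 1 := Nat.succ_le_succ (Nat.div_le_self k C)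
    exact_mod_cast h2
  exact Real.not_summable_one_div_natCast ((summable_nat_add_iff 1).1 (by simpa using h1))

end Pool.Agent.KS6_94.BF
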