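import Pool.Agent.KS6_94.BF.A
import Pool.Graph.R_pool_sql_team_seeded_63374d34.N646.MC.LaverB

/-! # The invariants for `b` with few small values -/

set_option autoImplicit false

namespace Pool.Agent.KS6_94.BF

open Cardinal Set Filter Pool.Agent.R593.Eq Pool.Agent.N646.MC

/-- For all `n` at most `F n` of the numbers `b k` are at most `n`. -/
def CountBelow (F b : ℕ → ℕ) : Prop :=
  ∀ n : ℕ, {k | b k ≤ n}.Finite ∧ {k | b k ≤ n}.ncard ≤ F n

/-- `slow F k` is the least `n ≥ 1` with `k < F n + n`. -/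
noncomputable def slow (F : ℕ → ℕ) (k : ℕ) : ℕ := sInf {n | 1 ≤ n ∧ k < F n + n}

theorem slow_mem (F : ℕ → ℕ) (k : ℕ) : 1 ≤ slow F k ∧ k < F (slow F k) + slow F k :=
  Nat.sInf_mem (s := {n | 1 ≤ n ∧ k < F n + n}) ⟨k + 1, by
    show 1 ≤ k + 1 ∧ k < F (k + 1) + (k + 1)
    omega⟩

theorem slow_tendsto (F : ℕ → ℕ) : Tendsto (slow F) atTop atTop := by
  refine tendsto_atTop.2 fun N => ?_
  filter_upwards [eventually_ge_atTop (∑ m ∈ Finset.range N, (F m + m))] with k hk
  by_contra hcon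
  rw [not_le] at hcon
  have h1 : F (slow F k) + slow F k ≤ ∑ m ∈ Finset.range N, (F m + m) :=
    Finset.single_le_sum (f := fun m => F m + m) (fun _ _ => Nat.zero_le _)
      (Finset.mem_range.2 hcon)
  have h2 := (slow_mem F k).2
  omega

theorem slow_le {F : ℕ → ℕ} {k n : ℕ} (hn : 1 ≤ n) (h : k < F n) : slow F k ≤ n :=
  Nat.sInf_le ⟨hn, by omega⟩

/-- coordinates read along an injection -/
theorem beq_le_of_escB_inj {K : Type} {b0 b : ℕ → ℕ} (h : EscB b0 K) (j : ℕ → ℕ)
    (hj : ∀ i, b0 (j i) ≤ b i) (hinj : Function.Injective j) : beq b ≤ #K := by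
  classical
  obtain ⟨y, hy1, hy2⟩ := h
  let f : K → ℕ → ℕ := fun κ i => y κ (j i)
  have hf : ∀ κ, f κ ∈ Prd b := fun κ i => lt_of_lt_of_le (hy1 κ (j i)) (hj i)
  have hnb : ¬ Bdd b (range f) := by
    rintro ⟨a, g, ha, _, hm⟩
    let h0 : ℕ → ℕ := fun v => if h : ∃ i, j i = v then g h.choose else 0
    have hh0 : ∀ i, h0 (j i) = g i := by
      intro i
      have h1 : ∃ i', j i' = j i := ⟨i, rfl⟩
      have h2 : h0 (j i) = g h1.choose := dif_pos h1
      rw [h2, hinj h1.choose_spec]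
    obtain ⟨κ, m, hκ⟩ := hy2 h0
    obtain ⟨M, hM⟩ := hm (f κ) (mem_range_self κ)
    have hmono : StrictMono a := strictMono_nat_of_lt_succ ha.2
    have hag : ∀ n, ∃ i, n ≤ i ∧ j i < m := by
      intro n
      obtain ⟨i, h1, h2, h3⟩ := hM (max M n) (le_max_left _ _)
      have h4 : max M n ≤ i := (hmono.id_le _).trans h1
      refine ⟨i, by omega, ?_⟩
      by_contra hcon
      exact hκ (j i) (not_lt.1 hcon) ((hh0 i).trans h3.symm)
    have hinf : {i | j i < m}.Infinite := by
      rw [Set.infinite_iff_exists_gt]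
      intro n
      obtain ⟨i, h1, h2⟩ := hag (n + 1)
      exact ⟨i, h2, h1⟩
    exact hinf ((Set.finite_lt_nat m).preimage hinj.injOn)
  refine (csInf_le' ⟨range f, ?_, hnb, rfl⟩ : beq b ≤ #(range f)).trans mk_range_le
  rintro _ ⟨κ, rfl⟩
  exact hf κ

/-- the upper bound for all `b` with at most `F n` values below `n` -/
theorem beq_le_of_count {K : Type} {F b : ℕ → ℕ} (h : EscB (slow F) K) (hb : ∀ i, 1 ≤ b i)
    (hC : CountBelow F b) : beq b ≤ #K := by
  classical
  let S : ℕ → Set ℕ := fun i => {i' | b i' < b i ∨ (b i' = b i ∧ i' < i)}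
  have hsub : ∀ i, S i ⊆ {k | b k ≤ b i} := fun i i' hi' => by
    rcases hi' with h | h
    · exact h.le
    · exact h.1.le
  have hSfin : ∀ i, (S i).Finite := fun i => (hC (b i)).1.subset (hsub i)
  have hlt : ∀ i, (S i).ncard < F (b i) := by
    intro i
    refine lt_of_lt_of_le (Set.ncard_lt_ncard ⟨hsub i, fun hs => ?_⟩ (hC (b i)).1) (hC (b i)).2
    have h1 : i ∈ S i := hs (show b i ≤ b i from le_rfl)
    rcases h1 with h | h
    · exact absurd h (lt_irrefl _)
    · exact absurd h.2 (lt_irrefl _)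
  have hmono : ∀ i i', (b i < b i' ∨ (b i = b i' ∧ i < i')) → (S i).ncard < (S i').ncard := by
    intro i i' hii
    refine Set.ncard_lt_ncard ⟨?_, fun hs => ?_⟩ (hSfin i')
    · intro z hz
      have hz' : b z < b i ∨ (b z = b i ∧ z < i) := hz
      show b z < b i' ∨ (b z = b i' ∧ z < i')
      omega
    · have h1 : i ∈ S i := hs hii
      rcases h1 with h | h
      · exact absurd h (lt_irrefl _)
      · exact absurd h.2 (lt_irrefl _)
  have hinj : Function.Injective fun i => (S i).ncard := by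
    intro i i' hii
    by_contra hne
    rcases lt_trichotomy (b i) (b i') with h | h | h
    · exact absurd hii (hmono i i' (Or.inl h)).ne
    · rcases lt_or_gt_of_ne hne with h' | h'
      · exact absurd hii (hmono i i' (Or.inr ⟨h, h'⟩)).ne
      · exact absurd hii (hmono i' i (Or.inr ⟨h.symm, h'⟩)).ne'
    · exact absurd hii (hmono i' i (Or.inl h)).ne'
  exact beq_le_of_escB_inj h (fun i => (S i).ncard) (fun i => slow_le (hb i) (hlt i)) hinj

/-- summable `b` -/
theorem exists_count {b : ℕ → ℕ} (hb : ∀ i, 1 ≤ b i) (hs : Summable fun i => (1 : ℝ) / b i) :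
    ∃ C : ℕ, CountBelow (fun n => C * n) b := linearCount_of_summable hb hs

end Pool.Agent.KS6_94.BF
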